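import Pool.Agent.X185.MB.Lower

/-!
# The growth of the numbers of marked balls (Question Q2)

`f d n` is the number of isomorphism classes of marked balls of radius `n` of marked `d`-generated
groups, `g d n` the number of those classes which occur for finite groups
(`Pool.Agent.X185.MB.Defs`). For `d ≥ 2` both functions are `exp (exp (Θ(n)))`; for `d = 1` both
are equal to `2n + 2`.
-/

set_option autoImplicit false

namespace Pool.Agent.Results.MP_0de6ea_al.DoubleExponential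

open Pool.Agent.X185.MB

theorem lower {d n : ℕ} (hd : 2 ≤ d) (hn : 70 ≤ n) :
    Real.exp (Real.exp (n / 24)) ≤ (g d n : ℝ) := by
  obtain ⟨e, rfl⟩ : ∃ e, d = e + 2 := ⟨d - 2, by omega⟩
  set k := (n - 18) / 6 with hk
  have h1 := two_pow_le_g e k n (by omega)
  have h2 : (((2 ^ 2 ^ k : ℕ)) : ℝ) ≤ (g (e + 2) n : ℝ) := by exact_mod_cast h1
  refine le_trans ?_ h2
  have hlog : (0.6931471803 : ℝ) < Real.log 2 := Real.log_two_gt_d9
  have hk0 : (0 : ℝ) ≤ k := Nat.cast_nonneg _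
  have hkn : (n : ℝ) ≤ 6 * k + 23 := by
    have : n ≤ 6 * k + 23 := by omega
    exact_mod_cast this
  have hn' : (70 : ℝ) ≤ n := by exact_mod_cast hn
  have h3 : (((2 ^ 2 ^ k : ℕ)) : ℝ) = Real.exp (Real.log 2 * (2 : ℝ) ^ k) := by
    push_cast
    rw [Real.exp_mul, Real.exp_log (by norm_num)]
    have : ((2 : ℝ) ^ k) = (((2 ^ k : ℕ)) : ℝ) := by push_cast; rfl
    rw [this, Real.rpow_natCast]
  rw [h3]
  apply Real.exp_le_exp.2
  have h4 : Real.exp (k / 2) ≤ (2 : ℝ) ^ k := by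
    have : (2 : ℝ) ^ k = Real.exp (k * Real.log 2) := by
      rw [mul_comm, Real.exp_mul, Real.exp_log (by norm_num), Real.rpow_natCast]
    rw [this]
    apply Real.exp_le_exp.2
    nlinarith
  have h5 : Real.exp (-1) ≤ Real.log 2 := by
    have := Real.exp_neg_one_lt_half
    linarith
  calc Real.exp (n / 24) ≤ Real.exp (-1 + k / 2) := by
        apply Real.exp_le_exp.2
        linarith
    _ = Real.exp (-1) * Real.exp (k / 2) := Real.exp_add _ _
    _ ≤ Real.log 2 * (2 : ℝ) ^ k :=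
        mul_le_mul h5 h4 (Real.exp_pos _).le (by linarith)

theorem upper {d n : ℕ} (hn : 1 ≤ n) :
    (f d n : ℝ) ≤ Real.exp (Real.exp (3 * Real.log (2 * d + 1) * n)) := by
  have h1 : (f d n : ℝ) ≤ (2 : ℝ) ^ (2 * d + 1) ^ (2 * n + 1) := by exact_mod_cast f_le d n
  refine h1.trans ?_
  set m : ℕ := (2 * d + 1) ^ (2 * n + 1) with hm
  have h2 : (2 : ℝ) ^ m ≤ Real.exp m := by
    have : (2 : ℝ) ≤ Real.exp 1 := by
      have := Real.add_one_le_exp (1 : ℝ)
      linarith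
    calc (2 : ℝ) ^ m ≤ Real.exp 1 ^ m := pow_le_pow_left₀ (by norm_num) this m
      _ = Real.exp m := by rw [← Real.exp_nat_mul, mul_one]
  refine h2.trans (Real.exp_le_exp.2 ?_)
  have hd : (0 : ℝ) < 2 * d + 1 := by positivity
  have h3 : Real.exp (3 * Real.log (2 * d + 1) * n) = (2 * d + 1 : ℝ) ^ (3 * n) := by
    have : 3 * Real.log (2 * d + 1) * n = Real.log (2 * d + 1) * ((3 * n : ℕ) : ℝ) := by
      push_cast; ring
    rw [this, Real.exp_mul, Real.exp_log hd, Real.rpow_natCast]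
  rw [h3, hm]
  push_cast
  exact pow_le_pow_right₀ (by linarith [(Nat.cast_nonneg d : (0 : ℝ) ≤ d)]) (by omega)

/-- For one generator both functions are `2n + 2`; for `d ≥ 2` generators both functions are
`exp (exp (Θ(n)))`: for all `n ≥ 70`,
`exp (exp (n / 24)) ≤ g_d(n) ≤ f_d(n) ≤ exp (exp (3 log (2d + 1) n))`. -/
theorem result :
    (∀ n : ℕ, f 1 n = 2 * n + 2 ∧ g 1 n = 2 * n + 2) ∧
    ∀ d : ℕ, 2 ≤ d → ∀ n : ℕ, 70 ≤ n →
      Real.exp (Real.exp (n / 24)) ≤ (g d n : ℝ) ∧ g d n ≤ f d n ∧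
      (f d n : ℝ) ≤ Real.exp (Real.exp (3 * Real.log (2 * d + 1) * n)) :=
  ⟨fun n => ⟨f_one n, g_one n⟩, fun d hd n hn =>
    ⟨lower hd hn, g_le_f d n, upper (by omega)⟩⟩

end Pool.Agent.Results.MP_0de6ea_al.DoubleExponential
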